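import Mathlib
import Pool.Agent.H25.TN.Crit

set_option autoImplicit false

/-!
# Tate classes on the powers of an abelian variety over a number field, from one reduction

`Γ` is a group (the absolute Galois group of a finitely generated field `k`) acting semisimply on a
symplectic space `V` by similitudes with multiplier `χ` (for an abelian variety `A` over `k`:
`V = H¹(Ā, ℚ̄_ℓ)`, `ψ` comes from a polarisation, `χ` is the inverse of the cyclotomic character, and the
action is semisimple by Faltings).  One element `F` of `Γ` (a Frobenius at a place of good reduction)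
has the eigenvalues `φ(π)^N`, where `π` is a Weil `q`-number generating a number field `E` of degree
`dim V`, satisfying a condition on its multiplicative relations or on its slopes.  Then all the Tate
classes of `⋀ (V ^ n) = H^*(Āⁿ)`, in all degrees and for all `n`, are polynomials in classes of degree two
which are Tate classes for a fixed subgroup `Γ'` of finite index.
-/

namespace Pool.Agent.Results.MP_0fca13_ag.OneReduction

universe u v

/-- The Tate classes of degree `2 j` for the subgroup `H` of `Γ`, in the exterior algebra of a space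
`W` on which `Γ` acts through `τ`: the elements `x` of `⋀^(2j) W` with `γ x = χ(γ) ^ j x` for all `γ`
in `H`. -/
def tate {Γ C W : Type*} [Group Γ] [Field C] [AddCommGroup W] [Module C W]
    (τ : Γ → (W →ₗ[C] W)) (χ : Γ →* Cˣ) (H : Subgroup Γ) (j : ℕ) :
    Submodule C (ExteriorAlgebra C W) :=
  ⋀[C]^(2 * j) W ⊓ ⨅ γ ∈ H,
    Module.End.eigenspace (ExteriorAlgebra.map (τ γ)).toLinearMap ((χ γ : C) ^ j)

/-- Each Tate class of `Γ` in `⋀^(2j) W` is a sum of products of `j` Tate classes of `Γ'` in `⋀^2 W`. -/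
def DegreeTwo {Γ C W : Type*} [Group Γ] [Field C] [AddCommGroup W] [Module C W]
    (τ : Γ → (W →ₗ[C] W)) (χ : Γ →* Cˣ) (Γ' : Subgroup Γ) : Prop :=
  ∀ j : ℕ, tate τ χ ⊤ j ≤ (tate τ χ Γ' 1) ^ j

/-- The diagonal action on `V ^ n`. -/
def power {Γ C V : Type*} [Group Γ] [Field C] [AddCommGroup V] [Module C V]
    (ρ : Γ →* (V →ₗ[C] V)) (n : ℕ) (γ : Γ) : (Fin n → V) →ₗ[C] (Fin n → V) :=
  (ρ γ).compLeft (Fin n)

/-- Subspaces of `V` stable under `Γ` have complements stable under `Γ`. -/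
def Semisimple {Γ C V : Type*} [Group Γ] [Field C] [AddCommGroup V] [Module C V]
    (ρ : Γ →* (V →ₗ[C] V)) : Prop :=
  ∀ U : Submodule C V, (∀ γ, ∀ x ∈ U, ρ γ x ∈ U) →
    ∃ W : Submodule C V, (∀ γ, ∀ x ∈ W, ρ γ x ∈ W) ∧ IsCompl U W

/-- `Γ` acts by similitudes with multiplier `χ` of the nondegenerate alternating form `ψ`. -/
def Similitudes {Γ C V : Type*} [Group Γ] [Field C] [AddCommGroup V] [Module C V]
    (ρ : Γ →* (V →ₗ[C] V)) (χ : Γ →* Cˣ) (ψ : V →ₗ[C] V →ₗ[C] C) : Prop :=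
  ψ.IsAlt ∧ ψ.SeparatingLeft ∧ ∀ γ x y, ψ (ρ γ x) (ρ γ y) = χ γ * ψ x y

/-- `dim V = [E : ℚ]` and, for some `N ≥ 1`, `χ(F) = q ^ N` and each `φ(π) ^ N`, `φ` an embedding of
`E` in `C`, is an eigenvalue of `F`. -/
def FrobeniusLike {Γ C V : Type*} [Group Γ] [Field C] [AddCommGroup V] [Module C V]
    (ρ : Γ →* (V →ₗ[C] V)) (χ : Γ →* Cˣ) (F : Γ) (q : ℕ) {E : Type u} [Field E] [NumberField E]
    (π : E) : Prop :=
  Module.finrank C V = Module.finrank ℚ E ∧ ∃ N : ℕ, 1 ≤ N ∧ (χ F : C) = (q : C) ^ N ∧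
    ∀ φ : E →+* C, ∃ x : V, x ≠ 0 ∧ ρ F x = (φ π) ^ N • x

/-- `π` is a Weil `q`-number generating `E`. -/
def IsWeil (q : ℕ) {E : Type u} [Field E] [NumberField E] (π : E) : Prop :=
  IntermediateField.adjoin ℚ {π} = ⊤ ∧ ∀ φ : E →+* ℂ, ‖φ π‖ ^ 2 = (q : ℝ)

/-- `π` is *neat*: each relation `(∏ φᵢ(π)) ^ (2N) = q ^ (N k)`, with `φ₁, …, φ_k` complex embeddings
(repetitions allowed) and `k, N ≥ 1`, involves two distinct embeddings `φ`, `ψ` with
`φ(π) ψ(π) = q`. -/
def Neat (q : ℕ) {E : Type u} [Field E] (π : E) : Prop :=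
  ∀ (l : List (E →+* ℂ)) (N : ℕ), l ≠ [] → 1 ≤ N →
    ((l.map (fun φ => φ π)).prod) ^ (2 * N) = (q : ℂ) ^ (N * l.length) →
    ∃ φ ∈ l, ∃ ψ ∈ l, φ ≠ ψ ∧ φ π * ψ π = (q : ℂ)

/-- One slope is isolated at a prime `r`: the slope `s = sl φ₀` is not `1/2` and, for each embedding
`φ` other than `φ₀` and its conjugate, `1/2 - sl φ` is `r`-adically smaller than `1/2 - s`. -/
def Isolated (q : ℕ) {E : Type u} [Field E] (π : E) {K : Type v} [Field K] (sl : (E →+* K) → ℚ) :
    Prop :=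
  ∃ (r : ℕ) (φ₀ : E →+* K), r.Prime ∧ sl φ₀ ≠ 1 / 2 ∧
    ∀ φ : E →+* K, φ ≠ φ₀ → φ π * φ₀ π ≠ (q : K) →
      padicNorm r (1 / 2 - sl φ) < padicNorm r (1 / 2 - sl φ₀)

/-- One slope is dominant: `|sl φ₀ - 1/2|` is larger than the sum of the `|sl φ - 1/2|` over the other
conjugate pairs; here `q` is a power of a prime and `π` is an algebraic integer. -/
def Dominant (q : ℕ) {E : Type u} [Field E] [NumberField E] (π : E) {K : Type v} [Field K] [CharZero K]
    (sl : (E →+* K) → ℚ) : Prop :=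
  ∃ (p a : ℕ) (φ₀ : E →+* K), p.Prime ∧ q = p ^ a ∧ IsIntegral ℤ π ∧
    ∑ φ, |sl φ - 1 / 2| < 4 * |sl φ₀ - 1 / 2|

/-- `[E : ℚ] = 2 l ^ k` with `l` prime, and for suitable `c` the `u φ = c (1 - 2 sl φ)` are integers whose
sum over each set consisting of one embedding out of each conjugate pair is prime to `l`. -/
def PrimePower (q : ℕ) {E : Type u} [Field E] [NumberField E] (π : E) {K : Type v} [Field K]
    (sl : (E →+* K) → ℚ) : Prop :=
  ∃ (l k : ℕ) (c : ℚ) (u : (E →+* K) → ℤ), l.Prime ∧ Module.finrank ℚ E = 2 * l ^ k ∧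
    π ^ 2 ≠ (q : E) ∧ (∀ φ, (u φ : ℚ) = c * (1 - 2 * sl φ)) ∧
    ∀ H : Finset (E →+* K), (∀ φ ψ : E →+* K, φ π * ψ π = (q : K) → (φ ∈ H ↔ ψ ∉ H)) →
      ¬ (l : ℤ) ∣ ∑ φ ∈ H, u φ

/-- For some algebraically closed field `K` of characteristic zero with an additive valuation `v`,
`v(q) = 1`, the slopes `sl φ = v(φ(π))` are rational and one of the three conditions above holds. -/
def SlopeCondition (q : ℕ) {E : Type u} [Field E] [NumberField E] (π : E) : Prop :=
  ∃ (K : Type v) (_ : Field K) (_ : CharZero K) (_ : IsAlgClosed K)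
    (w : AddValuation K (WithTop ℚ)) (sl : (E →+* K) → ℚ), w (q : K) = 1 ∧
    (∀ φ, w (φ π) = ((sl φ : ℚ) : WithTop ℚ)) ∧
    (Isolated q π sl ∨ Dominant q π sl ∨ PrimePower q π sl)

theorem mem_tate {Γ C V : Type*} [Group Γ] [Field C] [CharZero C] [AddCommGroup V] [Module C V]
    (ρ : Γ →* (V →ₗ[C] V)) (χ : Γ →* Cˣ) (H : Subgroup Γ) (n j : ℕ) :
    tate (power ρ n) χ H j = H25.TN.tate ρ (fun γ => (χ γ : C)) H n j := by
  ext x
  rw [H25.TN.mem_tate, tate, Submodule.mem_inf]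
  simp only [Submodule.mem_iInf, Module.End.mem_eigenspace_iff]
  rfl

/-- **Tate classes from one reduction.**
`π` is a Weil `q`-number generating the number field `E`; it is neat or satisfies one of the three
slope conditions.  The group `Γ` acts semisimply on the vector space `V` over the algebraically closed
field `C` of characteristic zero, by similitudes of a nondegenerate alternating form, and one element
`F` of `Γ` has the `[E : ℚ] = dim V` eigenvalues `φ(π) ^ N`.  Then there is a subgroup `Γ'` of finite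
index in `Γ`, containing `F`, such that, for all `n` and `j`, each Tate class of `Γ` in
`⋀^(2j) (V ^ n)` is a sum of products of `j` Tate classes of `Γ'` in `⋀^2 (V ^ n)`. -/
theorem result {q : ℕ} {E : Type u} [Field E] [NumberField E] {π : E} (hw : IsWeil q π)
    (hπ : Neat q π ∨ SlopeCondition.{u, v} q π)
    {Γ C V : Type*} [Group Γ] [Field C] [CharZero C] [IsAlgClosed C] [AddCommGroup V] [Module C V]
    (ρ : Γ →* (V →ₗ[C] V)) (hss : Semisimple ρ) (χ : Γ →* Cˣ) (ψ : V →ₗ[C] V →ₗ[C] C)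
    (hψ : Similitudes ρ χ ψ) (F : Γ) (hF : FrobeniusLike ρ χ F q π) :
    ∃ Γ' : Subgroup Γ, F ∈ Γ' ∧ Γ'.FiniteIndex ∧ ∀ n : ℕ, DegreeTwo (power ρ n) χ Γ' := by
  obtain ⟨hgen, habs⟩ := hw
  obtain ⟨halt, hnd, hψ⟩ := hψ
  obtain ⟨hdim, N, hN, hχ, hF⟩ := hF
  have hneat : H25.TN.Neat q π := by
    rcases hπ with h | ⟨K, i1, i2, i3, w, sl, hw, hsl, h⟩
    · exact h
    · rcases h with ⟨r, φ₀, hr, h1, h2⟩ | ⟨p, a, φ₀, hp, hq, hint, h⟩ | ⟨l, k, c, u, hl, hd, hne, hu, h⟩
      · exact H25.TN.neat_isolated hgen habs w hw sl hsl r hr φ₀ h1 h2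
      · exact H25.TN.neat_dominant hgen habs p a hp hq hint w hw sl hsl φ₀ h
      · exact H25.TN.neat_primePower hgen habs w hw sl hsl l k hl hd hne c u hu h
  obtain ⟨Γ', h1, h2, h3⟩ :=
    H25.TN.weil_main hgen habs hneat ρ hss χ ψ halt hnd hψ F N hN hχ hF hdim
  refine ⟨Γ', h1, h2, fun n j => ?_⟩
  rw [mem_tate, mem_tate]
  exact h3 n j

end Pool.Agent.Results.MP_0fca13_ag.OneReduction
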